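import Mathlib

namespace Pool.Agent.Results.MP_2f3180_ag.NoPolya

open MvPolynomial

theorem mono {n : ℕ} (P : MvPolynomial (Fin n) ℝ) (h : ∀ s, 0 ≤ coeff s P) (x y : Fin n → ℝ)
    (hx : ∀ i, 0 ≤ x i) (hxy : ∀ i, x i ≤ y i) : eval x P ≤ eval y P := by
  rw [eval_eq', eval_eq']
  refine Finset.sum_le_sum fun s _ => mul_le_mul_of_nonneg_left ?_ (h s)
  exact Finset.prod_le_prod (fun i _ => pow_nonneg (hx i) _)
    fun i _ => pow_le_pow_left₀ (hx i) (hxy i) _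

theorem pos (x : ℕ → ℝ) (hs : Summable fun i => x i ^ 2) (h1 : ∑' i, x i ^ 2 = 1) :
    0 < (∑' i, x i ^ 4) ^ 2 - ∑' i, x i ^ 8 + (∑' i, x i ^ 4 - 1 / 4) ^ 2 := by
  have b1 : ∀ i, x i ^ 2 ≤ 1 := fun i => h1 ▸ hs.le_tsum i fun j _ => sq_nonneg _
  have c4 : ∀ i, x i ^ 4 ≤ x i ^ 2 := fun i => by nlinarith [b1 i, sq_nonneg (x i)]
  have s4 : Summable fun i => x i ^ 4 := Summable.of_nonneg_of_le (fun i => by positivity) c4 hs
  obtain ⟨A, hA⟩ : ∃ A, A = ∑' i, x i ^ 4 := ⟨_, rfl⟩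
  have b4 : ∀ i, x i ^ 4 ≤ A := fun i => hA ▸ s4.le_tsum i fun j _ => by positivity
  have c8 : ∀ i, x i ^ 8 ≤ A * x i ^ 4 := fun i => by
    rw [show x i ^ 8 = x i ^ 4 * x i ^ 4 by ring]
    exact mul_le_mul_of_nonneg_right (b4 i) (by positivity)
  have s8 : Summable fun i => x i ^ 8 :=
    Summable.of_nonneg_of_le (fun i => by positivity) c8 (s4.mul_left A)
  have e : ∑' i, A * x i ^ 4 = A ^ 2 := by rw [tsum_mul_left, ← hA, pow_two]
  have le : ∑' i, x i ^ 8 ≤ A ^ 2 := e ▸ s8.tsum_le_tsum c8 (s4.mul_left A)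
  rw [← hA]
  by_cases hA4 : A = 1 / 4
  · have lt : ∑' i, x i ^ 8 < A ^ 2 := by
      obtain ⟨i, hi⟩ : ∃ i, x i ≠ 0 ∧ x i ^ 4 ≠ A := by
        by_contra hn
        push Not at hn
        have c : ∀ i, x i ^ 4 = 1 / 2 * x i ^ 2 := by
          intro i
          by_cases h0 : x i = 0
          · simp [h0]
          · have h2 : (x i ^ 2 - 1 / 2) * (x i ^ 2 + 1 / 2) = 0 := by
              linear_combination hn i h0 + hA4
            have h3 := (mul_eq_zero.mp h2).resolve_right (by positivity)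
            linear_combination x i ^ 2 * h3
        rw [tsum_congr c, tsum_mul_left, h1, hA4] at hA
        norm_num at hA
      rw [← e]
      refine s8.tsum_lt_tsum (i := i) c8 ?_ (s4.mul_left A)
      rw [show x i ^ 8 = x i ^ 4 * x i ^ 4 by ring]
      exact mul_lt_mul_of_pos_right (lt_of_le_of_ne (b4 i) hi.2) (by have := hi.1; positivity)
    nlinarith [sq_nonneg (A - 1 / 4)]
  · have : 0 < (A - 1 / 4) ^ 2 := by have := sub_ne_zero.mpr hA4; positivity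
    linarith

theorem result : ∃ (d : ℕ) (g : MvPolynomial ℕ ℝ),
    IsWeightedHomogeneous (fun j => 2 * (j + 1)) g (2 * d) ∧
    (∀ x : ℕ → ℝ, Summable (fun i => x i ^ 2) → ∑' i, x i ^ 2 = 1 →
      0 < eval (fun j => ∑' i, x i ^ (2 * (j + 1))) g) ∧
    ∀ k : ℕ, ∃ (n : ℕ) (s : Fin n →₀ ℕ), coeff s (psum (Fin n) ℝ 2 ^ k *
      aeval (fun j => psum (Fin n) ℝ (2 * (j + 1))) g) < 0 := by
  refine ⟨4, X 1 ^ 2 - X 3 + (X 1 - C (1 / 4) * X 0 ^ 2) ^ 2, ?_, fun x hs h1 => ?_, fun k => ?_⟩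
  · have h := fun j => isWeightedHomogeneous_X ℝ (fun j : ℕ => 2 * (j + 1)) j
    exact (((h 1).pow 2).sub (h 3)).add (((h 1).sub (((h 0).pow 2).C_mul _)).pow 2)
  · simpa [h1] using pos x hs h1
  by_contra hn
  push Not at hn
  obtain ⟨m, hm⟩ : ∃ m : ℕ, m = 2 ^ (k + 9) := ⟨_, rfl⟩
  have hm' : (m : ℝ) = 2 ^ k * 512 := by rw [hm]; push_cast; ring
  have hk : (1 : ℝ) ≤ 2 ^ k := one_le_pow₀ (by norm_num)
  obtain ⟨u, hu⟩ : ∃ u : ℝ, u = 1 / m := ⟨_, rfl⟩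
  have hu0 : 0 < u := by rw [hu, hm']; positivity
  have hum : m * u = 1 := by rw [hu]; exact mul_one_div_cancel (by rw [hm']; positivity)
  have hu1 : 2 ^ k * u = 1 / 512 := by rw [hm'] at hum; linarith
  have hu2 : u ≤ 1 / 512 := by nlinarith
  have hp : ∀ (a : ℝ) (j : ℕ), eval (Fin.cons a fun _ => √u : Fin (m + 1) → ℝ)
      (psum (Fin (m + 1)) ℝ (2 * (j + 1))) = a ^ (2 * (j + 1)) + u ^ j := by
    intro a j
    rw [psum, map_sum, Fin.sum_univ_succ]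
    simp only [map_pow, eval_X, Fin.cons_zero, Fin.cons_succ,
      Finset.sum_const, Finset.card_univ, Fintype.card_fin, nsmul_eq_mul]
    rw [pow_mul √u, Real.sq_sqrt hu0.le, pow_succ u]
    linear_combination u ^ j * hum
  have key := mono _ (hn (m + 1)) (Fin.cons 0 fun _ => √u) (Fin.cons 1 fun _ => √u)
    (Fin.cases le_rfl fun _ => Real.sqrt_nonneg _) (Fin.cases zero_le_one fun _ => le_rfl)
  have h0 := fun a => hp a 0
  simp only [zero_add, mul_one] at h0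
  simp only [map_mul, map_pow, map_add, map_sub, aeval_X, aeval_C, algebraMap_eq, eval_C, hp,
    h0] at key
  norm_num at key
  have e : (2 : ℝ) ^ k * ((1 + u) ^ 2 - (1 + u ^ 3) + u ^ 2) =
      1 / 512 * (2 + 2 * u - u ^ 2) := by rw [← hu1]; ring
  norm_num at e
  nlinarith [pow_pos hu0 2, pow_pos hu0 3]

end Pool.Agent.Results.MP_2f3180_ag.NoPolya
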